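import Mathlib
import Pool.Agent.H713R2.AR.GF
import Pool.Agent.H713R2.AR.HB
import Pool.Agent.H713R2.AR.LB

set_option autoImplicit false

open Complex Topology Filter Metric MeasureTheory Set N62a1eb23

namespace Pool.Agent.H548R3.MB

open Pool.Agent.H713R2 Pool.Agent.H712R2 Pool.Agent.H713R2.AR

/-- The iterated Schottky bounds. -/
noncomputable def SM (M : ℝ) : ℕ → ℝ
  | 0 => M
  | k + 1 => Real.exp (Real.pi * Real.exp (Real.pi * (SM M k + 386)))

theorem self_le_exp (x : ℝ) : x ≤ Real.exp (Real.pi * Real.exp (Real.pi * (x + 386))) := by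
  by_cases hx : x ≤ 0
  · exact hx.trans (Real.exp_pos _).le
  · push Not at hx
    have hpi : 1 ≤ Real.pi := by linarith [Real.pi_gt_three]
    have h1 : x + 386 ≤ Real.pi * (x + 386) := by nlinarith
    have h2 : x + 386 + 1 ≤ Real.exp (Real.pi * (x + 386)) := by
      linarith [Real.add_one_le_exp (Real.pi * (x + 386))]
    have h3 : Real.exp (Real.pi * (x + 386)) ≤ Real.pi * Real.exp (Real.pi * (x + 386)) := by
      nlinarith [Real.exp_pos (Real.pi * (x + 386))]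
    linarith [Real.add_one_le_exp (Real.pi * Real.exp (Real.pi * (x + 386)))]

theorem SM_le (M : ℝ) (k : ℕ) : SM M k ≤ SM M (k + 1) := self_le_exp _

theorem SM_nonneg {M : ℝ} (hM : 0 ≤ M) (k : ℕ) : 0 ≤ SM M k := by
  cases k with
  | zero => exact hM
  | succ k => exact (Real.exp_pos _).le

/-- Schottky's theorem on the discs of radius `1 - (3 / 4) ^ k`. -/
theorem chain {f : ℂ → ℂ} {M : ℝ} (hf : DifferentiableOn ℂ f (ball 0 1))
    (h1 : ∀ z ∈ ball (0 : ℂ) 1, f z ≠ 1) (h2 : ∀ z ∈ ball (0 : ℂ) 1, f z ≠ -1)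
    (h0 : ‖f 0‖ ≤ M) (k : ℕ) :
    ∀ z : ℂ, ‖z‖ ≤ 1 - (3 / 4 : ℝ) ^ k → ‖f z‖ ≤ SM M k := by
  induction k with
  | zero =>
    intro z hz
    have : z = 0 := by
      rw [← norm_le_zero_iff]; simpa using hz
    rw [this]; exact h0
  | succ k ih =>
    intro z hz
    have hpos : (0 : ℝ) < (3 / 4 : ℝ) ^ k := by positivity
    have hle : (3 / 4 : ℝ) ^ k ≤ 1 := pow_le_one₀ (by norm_num) (by norm_num)
    rw [pow_succ] at hz
    set h : ℝ := (3 / 4 : ℝ) ^ k with hh
    by_cases hz1 : ‖z‖ ≤ 1 - h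
    · exact (ih z hz1).trans (SM_le M k)
    · push Not at hz1
      have hzpos : 0 < ‖z‖ := by linarith
      have hq : 0 ≤ (1 - h) / ‖z‖ := div_nonneg (by linarith) hzpos.le
      have hq1 : (1 - h) / ‖z‖ ≤ 1 := by rw [div_le_one hzpos]; exact hz1.le
      set z0 : ℂ := (((1 - h) / ‖z‖ : ℝ) : ℂ) * z with hz0
      have hz0n : ‖z0‖ = 1 - h := by
        rw [hz0, norm_mul, Complex.norm_real, Real.norm_eq_abs, abs_of_nonneg hq,
          div_mul_cancel₀ _ hzpos.ne']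
      have hsub : z - z0 = ((1 - (1 - h) / ‖z‖ : ℝ) : ℂ) * z := by
        rw [hz0]; push_cast; ring
      have hdn : ‖z - z0‖ = ‖z‖ - (1 - h) := by
        rw [hsub, norm_mul, Complex.norm_real, Real.norm_eq_abs, abs_of_nonneg (by linarith),
          sub_mul, div_mul_cancel₀ _ hzpos.ne', one_mul]
      have hmap : ∀ w ∈ ball (0 : ℂ) 1, z0 + h * w ∈ ball (0 : ℂ) 1 := by
        intro w hw
        rw [mem_ball_zero_iff] at hw ⊢
        have h3 : ‖(h : ℂ) * w‖ = h * ‖w‖ := by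
          rw [norm_mul, Complex.norm_real, Real.norm_eq_abs, abs_of_pos hpos]
        have h4 := norm_add_le z0 ((h : ℂ) * w)
        rw [h3, hz0n] at h4
        nlinarith
      have hC : (h : ℂ) ≠ 0 := by exact_mod_cast hpos.ne'
      have h5 := H113G.schottky_all (fun w => f (z0 + h * w)) (SM M k)
        (hf.comp (by fun_prop) (fun w hw => hmap w hw))
        (fun w hw => h1 _ (hmap w hw)) (fun w hw => h2 _ (hmap w hw))
        (by simp only [mul_zero, add_zero]; exact ih z0 hz0n.le)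
        ((z - z0) / h) (by
          rw [mem_ball_zero_iff, norm_div, Complex.norm_real, Real.norm_eq_abs, abs_of_pos hpos,
            div_lt_iff₀ hpos, hdn]
          linarith)
      have h6 : z0 + h * ((z - z0) / h) = z := by field_simp; ring
      simp only [h6] at h5
      exact h5

/-- The critical orbit in the Multibrot set. -/
theorem ratio {d : ℕ} (hd : 2 ≤ d) {c : ℂ} (hc : c ∈ multibrotSet d) (n : ℕ) :
    ‖P d n c‖ ^ d ≤ 4 * 2 ^ d * ‖c‖ := by
  have hcb := (mem_multibrot_iff hd c).mp hc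
  have hc0 := norm_nonneg c
  have h2d : (0 : ℝ) < 2 ^ d := by positivity
  by_cases h : 1 / 4 ≤ ‖c‖
  · have h1 : ‖P d n c‖ ^ d ≤ 2 ^ d := pow_le_pow_left₀ (norm_nonneg _) (hcb n) d
    nlinarith
  · push Not at h
    have hP : ∀ n, ‖P d n c‖ ≤ 2 * ‖c‖ := by
      intro n
      induction n with
      | zero => rw [P_zero, norm_zero]; positivity
      | succ n ih =>
        rw [P_succ]
        have h1 := norm_add_le (P d n c ^ d) c
        rw [norm_pow] at h1
        have h2 : ‖P d n c‖ ^ d ≤ (2 * ‖c‖) ^ d := pow_le_pow_left₀ (norm_nonneg _) ih d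
        have h3 : (2 * ‖c‖) ^ d ≤ (2 * ‖c‖) ^ 2 :=
          pow_le_pow_of_le_one (by positivity) (by linarith) hd
        nlinarith
    have h1 : ‖P d n c‖ ^ d ≤ (2 * ‖c‖) ^ d := pow_le_pow_left₀ (norm_nonneg _) (hP n) d
    have h2 : ‖c‖ ^ d ≤ ‖c‖ ^ 1 := pow_le_pow_of_le_one hc0 (by linarith) (by omega)
    rw [mul_pow] at h1
    rw [pow_one] at h2
    nlinarith

/-- `c` is a centre of period at most `N`: the critical point `0` of `z ^ d + c` is periodic. -/
def Centre (d N : ℕ) (c : ℂ) : Prop :=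
  ∃ p, 1 ≤ p ∧ p ≤ N ∧ (fun z : ℂ => z ^ d + c)^[p] 0 = 0

/-- The bound for the critical orbits. -/
noncomputable def MM (d k : ℕ) : ℝ := (SM (1 + 8 * 2 ^ d) k + 1) ^ 2

theorem one_le_MM (d k : ℕ) : 1 ≤ MM d k := by
  have h1 : 0 ≤ SM (1 + 8 * 2 ^ d) k := SM_nonneg (by positivity) k
  unfold MM
  nlinarith

theorem disc_bd {d : ℕ} (hd : 2 ≤ d) {J : ℕ} {γ : ℂ → ℂ} (hγ : DifferentiableOn ℂ γ (ball 0 1))
    (hc : γ 0 ∈ multibrotSet d) (hno : ∀ t ∈ ball (0 : ℂ) 1, ¬ Centre d (J + 2) (γ t)) (k : ℕ) :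
    ∀ t : ℂ, ‖t‖ ≤ 1 - (3 / 4 : ℝ) ^ k → BdJ d (MM d k) (J + 1) (γ t) := by
  have hP : ∀ t ∈ ball (0 : ℂ) 1, ∀ n, 1 ≤ n → n ≤ J + 2 → P d n (γ t) ≠ 0 :=
    fun t ht n h1 h2 h3 => hno t ht ⟨n, h1, h2, h3⟩
  have hγ0 : ∀ t ∈ ball (0 : ℂ) 1, γ t ≠ 0 := by
    intro t ht
    have := hP t ht 1 le_rfl (by omega)
    rwa [P_one hd] at this
  have h00 : (0 : ℂ) ∈ ball (0 : ℂ) 1 := mem_ball_self one_pos
  set S : ℝ := SM (1 + 8 * 2 ^ d) k with hS
  have hS0 : 0 ≤ S := SM_nonneg (by positivity) k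
  have key : ∀ n, 1 ≤ n → n ≤ J + 1 → ∀ t : ℂ, ‖t‖ ≤ 1 - (3 / 4 : ℝ) ^ k →
      ‖P d n (γ t)‖ ^ d ≤ (S + 1) * ‖γ t‖ := by
    intro n hn1 hn2 t ht
    have htb : t ∈ ball (0 : ℂ) 1 := by
      rw [mem_ball_zero_iff]
      have : (0 : ℝ) < (3 / 4 : ℝ) ^ k := by positivity
      linarith
    set f : ℂ → ℂ := fun t => 1 + 2 * (P d n (γ t)) ^ d / (γ t) with hf
    have hfd : DifferentiableOn ℂ f (ball 0 1) := by
      have h1 : DifferentiableOn ℂ (fun t => P d n (γ t)) (ball 0 1) :=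
        (differentiable_P d n).comp_differentiableOn hγ
      exact (((h1.pow d).const_mul 2).div hγ hγ0).const_add 1
    have h1 : ∀ x ∈ ball (0 : ℂ) 1, f x ≠ 1 := by
      intro x hx h
      have h2 : 2 * (P d n (γ x)) ^ d / (γ x) = 0 := by
        have : f x - 1 = 0 := by rw [h, sub_self]
        rw [← this, hf]; ring
      rcases div_eq_zero_iff.mp h2 with h3 | h3
      · have h4 := (mul_eq_zero.mp h3).resolve_left two_ne_zero
        exact hP _ hx n hn1 (by omega) (pow_eq_zero_iff (by omega) |>.mp h4)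
      · exact hγ0 _ hx h3
    have h2 : ∀ x ∈ ball (0 : ℂ) 1, f x ≠ -1 := by
      intro x hx h
      have hx0 := hγ0 _ hx
      have h3 : 1 + 2 * (P d n (γ x)) ^ d / (γ x) = -1 := h
      have h4 : (P d n (γ x)) ^ d + (γ x) = 0 := by
        field_simp at h3
        linear_combination h3 / 2
      rw [← P_succ] at h4
      exact hP _ hx (n + 1) (by omega) (by omega) h4
    have h3 : ‖f 0‖ ≤ 1 + 8 * 2 ^ d := by
      simp only [hf]
      refine (norm_add_le _ _).trans ?_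
      have hcp : 0 < ‖γ 0‖ := norm_pos_iff.mpr (hγ0 0 h00)
      have h4 := ratio hd hc n
      rw [norm_one, norm_div, norm_mul, norm_pow]
      have h5 : ‖(2 : ℂ)‖ = 2 := by simp
      rw [h5]
      have h6 : 2 * ‖P d n (γ 0)‖ ^ d / ‖γ 0‖ ≤ 8 * 2 ^ d := by
        rw [div_le_iff₀ hcp]; linarith
      linarith
    have h4 := chain hfd h1 h2 h3 k t ht
    have hcp : 0 < ‖γ t‖ := norm_pos_iff.mpr (hγ0 t htb)
    have h5 : ‖2 * P d n (γ t) ^ d / γ t‖ ≤ S + 1 := by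
      have h6 : ‖2 * P d n (γ t) ^ d / γ t‖ ≤ ‖1 + 2 * P d n (γ t) ^ d / γ t‖ + ‖(1 : ℂ)‖ := by
        have := norm_sub_le (1 + 2 * P d n (γ t) ^ d / γ t) 1
        rwa [add_sub_cancel_left] at this
      rw [norm_one] at h6
      simp only [hf] at h4
      linarith
    rw [norm_div, norm_mul, norm_pow, div_le_iff₀ hcp] at h5
    have h6 : ‖(2 : ℂ)‖ = 2 := by simp
    rw [h6] at h5
    have h7 : 0 ≤ ‖P d n (γ t)‖ ^ d := by positivity
    linarith
  intro t ht n hn1 hn2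
  have hb1 : ‖γ t‖ ≤ S + 1 := by
    have h1 := key 1 le_rfl (by omega) t ht
    rw [P_one hd] at h1
    by_contra hcon
    push Not at hcon
    have h2 : ‖γ t‖ ^ 2 ≤ ‖γ t‖ ^ d := pow_le_pow_right₀ (by linarith) hd
    nlinarith
  have h1 := key n hn1 hn2 t ht
  have h2 : ‖P d n (γ t)‖ ^ d ≤ MM d k := by
    refine h1.trans ?_
    unfold MM
    rw [← hS]
    nlinarith
  by_cases h3 : ‖P d n (γ t)‖ ≤ 1
  · exact h3.trans (one_le_MM d k)
  · push Not at h3
    exact (le_self_pow₀ h3.le (by omega)).trans h2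

/-- The constant in the level. -/
noncomputable def KC (d k : ℕ) : ℝ := d * (Real.log (MM d k + 3) + Real.log 4)

theorem KC_nonneg (d k : ℕ) : 0 ≤ KC d k := by
  have h1 := one_le_MM d k
  have h2 : 0 ≤ Real.log (MM d k + 3) := Real.log_nonneg (by linarith)
  have h3 : 0 ≤ Real.log 4 := Real.log_nonneg (by norm_num)
  unfold KC
  positivity

/-- The speed of holomorphic discs without centres of small period. -/
theorem disc_ineq {d a b : ℕ} (hab : a + b + 2 = d) {J : ℕ} {γ : ℂ → ℂ}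
    (hγ : DifferentiableOn ℂ γ (ball 0 1))
    (hc : γ 0 ∈ multibrotSet d) (hno : ∀ t ∈ ball (0 : ℂ) 1, ¬ Centre d (J + 2) (γ t)) (k : ℕ) :
    (1 - (3 / 4 : ℝ) ^ k) * ‖deriv γ 0‖ ≤ d / Real.pi *
      √((∫ z in GLev d (γ 0) (KC d k / (d : ℝ) ^ (J + 2)), ‖z‖ ^ (2 * a)) *
        ∫ z in GLev d (γ 0) (KC d k / (d : ℝ) ^ (J + 2)), ‖z‖ ^ (2 * b)) := by
  have hd : 2 ≤ d := by omega
  have hpi := Real.pi_pos
  have hdR : (2 : ℝ) ≤ d := by exact_mod_cast hd
  have hpos : (0 : ℝ) < (3 / 4 : ℝ) ^ k := by positivity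
  have hle : (3 / 4 : ℝ) ^ k ≤ 1 := pow_le_one₀ (by norm_num) (by norm_num)
  set ρ : ℝ := 1 - (3 / 4 : ℝ) ^ k with hρ
  have hρ0 : 0 ≤ ρ := by linarith
  have hρ1 : ρ < 1 := by linarith
  set c : ℂ := γ 0 with hcdef
  have hcb := (mem_multibrot_iff hd c).mp hc
  have hc2 : ‖c‖ ≤ 2 := by have := hcb 1; rwa [P_one hd] at this
  have hM1 := one_le_MM d k
  have hmap : ∀ t ∈ ball (0 : ℂ) 1, ‖(ρ : ℂ) * t‖ ≤ ρ := by
    intro t ht
    rw [mem_ball_zero_iff] at ht
    rw [norm_mul, Complex.norm_real, Real.norm_eq_abs, abs_of_nonneg hρ0]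
    nlinarith
  have hlev := level_ineqM hab (M := MM d k) (M' := MM d k + 3) (by linarith) (by linarith)
    (by linarith) (γ := fun t => γ (ρ * t)) ?_ J ?_
  rotate_left
  · apply hγ.comp (by fun_prop)
    intro t ht
    rw [mem_ball_zero_iff]
    exact (hmap t ht).trans_lt hρ1
  · intro t ht
    exact disc_bd hd hγ hc hno k _ (hmap t ht)
  have hder : deriv (fun t => γ (ρ * t)) 0 = ρ * deriv γ 0 := by
    have h3 : HasDerivAt γ (deriv γ 0) ((ρ : ℂ) * 0) := by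
      rw [mul_zero]
      exact (hγ.differentiableAt (ball_mem_nhds 0 one_pos)).hasDerivAt
    have h4 : HasDerivAt (fun t : ℂ => (ρ : ℂ) * t) ρ 0 := by
      simpa using (hasDerivAt_id (0 : ℂ)).const_mul (ρ : ℂ)
    have h5 := h3.comp (0 : ℂ) h4
    rw [mul_comm]
    exact h5.deriv
  rw [hder, mul_zero, norm_mul, Complex.norm_real, Real.norm_eq_abs, abs_of_nonneg hρ0] at hlev
  rw [← hcdef] at hlev
  have hsub : EM d (MM d k + 3) c (J + 1) ⊆ GLev d c (KC d k / (d : ℝ) ^ (J + 2)) := by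
    intro z hz
    have hz' : ‖(fc d c)^[J + 1] z‖ ≤ MM d k + 3 := hz
    have h2 := (abs_le.mp (green_near hd (A := 2) (by norm_num) hc2 z (J + 1))).2
    have h3 : gap d c z (J + 1) ≤ Real.log (MM d k + 3) / (d : ℝ) ^ (J + 1) := by
      unfold gap
      apply div_le_div_of_nonneg_right _ (by positivity)
      refine (Real.posLog_le_posLog (norm_nonneg _) hz').trans ?_
      rw [Real.posLog_eq_log (by rw [abs_of_nonneg (by linarith)]; linarith)]
    have h4 : KC d k / (d : ℝ) ^ (J + 2) =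
        Real.log (MM d k + 3) / (d : ℝ) ^ (J + 1) + Real.log 4 / (d : ℝ) ^ (J + 1) := by
      unfold KC
      rw [pow_succ (d : ℝ) (J + 1)]
      field_simp
    have h5 : (2 : ℝ) * 2 = 4 := by norm_num
    rw [h5] at h2
    change green d c z ≤ _
    rw [h4]
    linarith
  have hmono : ∀ n : ℕ, (1 / Real.pi * ∫ z in EM d (MM d k + 3) c (J + 1), ‖z‖ ^ (2 * n)) ≤
      1 / Real.pi * ∫ z in GLev d c (KC d k / (d : ℝ) ^ (J + 2)), ‖z‖ ^ (2 * n) := by
    intro n
    apply mul_le_mul_of_nonneg_left _ (by positivity)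
    apply setIntegral_mono_set
    · exact ((continuous_norm.pow _).continuousOn).integrableOn_compact (isCompact_GLev hd _ _)
    · exact Filter.Eventually.of_forall fun z => by positivity
    · exact hsub.eventuallyLE
  set T : ℝ := (∫ z in GLev d c (KC d k / (d : ℝ) ^ (J + 2)), ‖z‖ ^ (2 * a)) *
    ∫ z in GLev d c (KC d k / (d : ℝ) ^ (J + 2)), ‖z‖ ^ (2 * b) with hT
  have h3 : (ρ * ‖deriv γ 0‖ / d) ^ 2 ≤ (1 / Real.pi) ^ 2 * T := by
    refine hlev.trans ((mul_le_mul (hmono a) (hmono b) ?_ ?_).trans (le_of_eq ?_))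
    · apply mul_nonneg (by positivity)
      apply integral_nonneg; intro z; positivity
    · apply mul_nonneg (by positivity)
      apply integral_nonneg; intro z; positivity
    · rw [hT]; ring
  have h4 : (ρ * ‖deriv γ 0‖ / d * Real.pi) ^ 2 ≤ T := by
    rw [mul_pow]
    calc (ρ * ‖deriv γ 0‖ / d) ^ 2 * Real.pi ^ 2 ≤ ((1 / Real.pi) ^ 2 * T) * Real.pi ^ 2 :=
          mul_le_mul_of_nonneg_right h3 (by positivity)
      _ = T := by field_simp
  have h5 := Real.le_sqrt_of_sq_le h4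
  calc ρ * ‖deriv γ 0‖ = d / Real.pi * (ρ * ‖deriv γ 0‖ / d * Real.pi) := by field_simp
    _ ≤ _ := mul_le_mul_of_nonneg_left h5 (by positivity)

end Pool.Agent.H548R3.MB
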