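import Mathlib
import Pool.Agent.H548R3.MB.Eff

set_option autoImplicit false

open Complex Topology Filter Metric MeasureTheory Set N62a1eb23

namespace Pool.Agent.H548R3.MB

open Pool.Agent.H713R2 Pool.Agent.H712R2 Pool.Agent.H713R2.AR

theorem isClosed_centre (d N : ℕ) : IsClosed {c : ℂ | Centre d N c} := by
  have h : {c : ℂ | Centre d N c} = ⋃ p ∈ Finset.Icc 1 N, {c : ℂ | P d p c = 0} := by
    ext c
    simp only [Set.mem_ofPred_eq, Set.mem_iUnion, Finset.mem_Icc, exists_prop]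
    constructor
    · rintro ⟨p, h1, h2, h3⟩
      exact ⟨p, ⟨h1, h2⟩, h3⟩
    · rintro ⟨p, ⟨h1, h2⟩, h3⟩
      exact ⟨p, h1, h2, h3⟩
  rw [h]
  exact isClosed_biUnion_finset
    (fun p _ => isClosed_eq (differentiable_P d p).continuous continuous_const)

theorem centre_zero {d N : ℕ} (hd : 2 ≤ d) (hN : 1 ≤ N) : Centre d N 0 :=
  ⟨1, le_rfl, hN, P_one hd 0⟩

theorem att_of_centre {d : ℕ} (hd : 2 ≤ d) {c : ℂ} {n : ℕ} (hn : 1 ≤ n)
    (h : (fun z : ℂ => z ^ d + c)^[n] 0 = 0) :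
    IsAttractingCycle (fun z => z ^ d + c) n 0 := by
  have hdiff : ∀ m, Differentiable ℂ ((fun z : ℂ => z ^ d + c)^[m]) := fun m =>
    (by fun_prop : Differentiable ℂ (fun z : ℂ => z ^ d + c)).iterate m
  refine ⟨by omega, h, hdiff n 0, ?_⟩
  obtain ⟨m, rfl⟩ : ∃ m, n = m + 1 := ⟨n - 1, by omega⟩
  have h1 : HasDerivAt (fun z : ℂ => z ^ d + c) 0 0 := by
    have h2 := (hasDerivAt_pow d (0 : ℂ)).add_const c
    rw [zero_pow (by omega : d - 1 ≠ 0), mul_zero] at h2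
    exact h2
  have h3 : HasDerivAt ((fun z : ℂ => z ^ d + c)^[m])
      (deriv ((fun z : ℂ => z ^ d + c)^[m]) ((fun z : ℂ => z ^ d + c) 0))
      ((fun z : ℂ => z ^ d + c) 0) := (hdiff m _).hasDerivAt
  have h4 := h3.comp (0 : ℂ) h1
  rw [mul_zero] at h4
  rw [Function.iterate_succ, h4.deriv, norm_zero]
  exact one_pos

/-- The nearest centre. -/
theorem nearest {d : ℕ} (hd : 2 ≤ d) {c : ℂ} (hc : c ∈ multibrotSet d) (J : ℕ) :
    ∃ c' : ℂ, Centre d (J + 2) c' ∧ ∀ k a b : ℕ, a + b + 2 = d →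
      (1 - (3 / 4 : ℝ) ^ k) * ‖c' - c‖ ≤ d / Real.pi *
        √((∫ z in GLev d c (KC d k / (d : ℝ) ^ (J + 2)), ‖z‖ ^ (2 * a)) *
          ∫ z in GLev d c (KC d k / (d : ℝ) ^ (J + 2)), ‖z‖ ^ (2 * b)) := by
  obtain ⟨c', hc', hdist⟩ := (isClosed_centre d (J + 2)).exists_infDist_eq_dist
    ⟨0, centre_zero hd (by omega)⟩ c
  refine ⟨c', hc', ?_⟩
  intro k a b hab
  set r : ℝ := dist c c' with hr
  have hrn : ‖c' - c‖ = r := by rw [hr, dist_comm, dist_eq_norm]
  rw [hrn]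
  rcases (dist_nonneg (x := c) (y := c')).eq_or_lt with h0 | h0
  · rw [← hr] at h0
    rw [← h0, mul_zero]
    have hpi := Real.pi_pos
    positivity
  · rw [← hr] at h0
    have hder : deriv (fun t : ℂ => c + r * t) 0 = r := by
      have h4 : HasDerivAt (fun t : ℂ => c + (r : ℂ) * t) r 0 := by
        simpa using ((hasDerivAt_id (0 : ℂ)).const_mul (r : ℂ)).const_add c
      exact h4.deriv
    have h1 := disc_ineq hab (J := J) (γ := fun t : ℂ => c + r * t) (by fun_prop) (by simpa using hc)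
      ?_ k
    · rw [hder, mul_zero, add_zero, Complex.norm_real, Real.norm_eq_abs, abs_of_pos h0] at h1
      exact h1
    · intro t ht hcen
      rw [mem_ball_zero_iff] at ht
      have h2 : infDist c {c : ℂ | Centre d (J + 2) c} ≤ dist c (c + r * t) :=
        infDist_le_dist_of_mem hcen
      rw [hdist, dist_eq_norm, show c - (c + r * t) = -(r * t) by ring, norm_neg, norm_mul,
        Complex.norm_real, Real.norm_eq_abs, abs_of_pos h0] at h2
      nlinarith

theorem exists_k {ε : ℝ} (hε : 0 < ε) : ∃ k : ℕ, 1 ≤ (1 + ε) * (1 - (3 / 4 : ℝ) ^ k) := by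
  obtain ⟨k, hk⟩ := exists_pow_lt_of_lt_one (show 0 < ε / (1 + ε) by positivity)
    (show (3 / 4 : ℝ) < 1 by norm_num)
  refine ⟨k, ?_⟩
  rw [lt_div_iff₀ (by linarith)] at hk
  nlinarith

theorem scale {ε x B : ℝ} {k : ℕ} (hε : 0 < ε) (hx : 0 ≤ x)
    (hk : 1 ≤ (1 + ε) * (1 - (3 / 4 : ℝ) ^ k)) (h : (1 - (3 / 4 : ℝ) ^ k) * x ≤ B) :
    x ≤ (1 + ε) * B := by
  calc x = 1 * x := (one_mul x).symm
    _ ≤ ((1 + ε) * (1 - (3 / 4 : ℝ) ^ k)) * x := mul_le_mul_of_nonneg_right hk hx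
    _ = (1 + ε) * ((1 - (3 / 4 : ℝ) ^ k) * x) := by ring
    _ ≤ (1 + ε) * B := mul_le_mul_of_nonneg_left h (by linarith)

theorem lt_KC {d : ℕ} (hd : 2 ≤ d) (k : ℕ) : (d : ℝ) < KC d k := by
  have h1 := one_le_MM d k
  have hdR : (2 : ℝ) ≤ d := by exact_mod_cast hd
  have h2 : Real.log 4 ≤ Real.log (MM d k + 3) := Real.log_le_log (by norm_num) (by linarith)
  have h3 : (1 : ℝ) < Real.log 4 := by
    have h5 : Real.log 4 = 2 * Real.log 2 := by
      rw [show (4 : ℝ) = 2 ^ 2 by norm_num, Real.log_pow]; norm_num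
    rw [h5]
    linarith [Real.log_two_gt_d9]
  unfold KC
  nlinarith

/-- Exponential density of centres at the parameters with polynomial decay. -/
theorem expo {d : ℕ} (hd : 2 ≤ d) {α : ℝ} (hα : 0 < α) (C : ℝ) :
    ∃ K : ℝ, ∀ c ∈ multibrotSet d,
      (∀ s ∈ Ioc (0 : ℝ) 1, volume {z : ℂ | green d c z ≤ s} ≤ ENNReal.ofReal (C * s ^ α)) →
      ∀ N : ℕ, 1 ≤ N → ∃ c' : ℂ, Centre d N c' ∧ ‖c' - c‖ ≤ K * ((d : ℝ) ^ N) ^ (-α) := by
  have hdR : (2 : ℝ) ≤ d := by exact_mod_cast hd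
  have hpi := Real.pi_pos
  set K₀ : ℝ := KC d 1 with hK₀
  have hdK : (d : ℝ) < K₀ := lt_KC hd 1
  have hK₀0 : 0 < K₀ := by linarith
  set R : ℝ := 4 * Real.exp 1 with hR
  have hR0 : 0 < R := by positivity
  set K₁ : ℝ := 4 * (d / Real.pi * (R ^ (d - 2) * |C|)) with hK₁
  have hK₁0 : 0 ≤ K₁ := by positivity
  refine ⟨(2 + K₁) * K₀ ^ α, ?_⟩
  intro c hc hvol N hN
  have hcb := (mem_multibrot_iff hd c).mp hc
  have hc2 : ‖c‖ ≤ 2 := by have := hcb 1; rwa [P_one hd] at this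
  have hdN : (0 : ℝ) < (d : ℝ) ^ N := by positivity
  have hKα : 0 < K₀ ^ α := Real.rpow_pos_of_pos hK₀0 α
  have hdiv : K₀ ^ α * ((d : ℝ) ^ N) ^ (-α) = (K₀ / (d : ℝ) ^ N) ^ α := by
    rw [Real.div_rpow hK₀0.le hdN.le, Real.rpow_neg hdN.le]; rfl
  rw [mul_assoc, hdiv]
  by_cases hs : K₀ / (d : ℝ) ^ N ≤ 1
  · have hN2 : 2 ≤ N := by
      by_contra hcon
      have hN1 : N = 1 := by omega
      rw [hN1, pow_one, div_le_one (by linarith)] at hs
      linarith
    obtain ⟨J, rfl⟩ : ∃ J, N = J + 2 := ⟨N - 2, by omega⟩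
    set s : ℝ := K₀ / (d : ℝ) ^ (J + 2) with hsdef
    have hs0 : 0 < s := by positivity
    obtain ⟨c', hc', hb⟩ := nearest hd hc J
    refine ⟨c', hc', ?_⟩
    have h1 := hb 1 (d - 2) 0 (by omega)
    rw [← hK₀, ← hsdef] at h1
    have hv := hvol s ⟨hs0, hs⟩
    have hvt : (volume (GLev d c s)).toReal ≤ |C| * s ^ α := by
      have h2 : (volume (GLev d c s)).toReal ≤ (ENNReal.ofReal (C * s ^ α)).toReal :=
        ENNReal.toReal_mono ENNReal.ofReal_ne_top hv
      refine h2.trans ?_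
      have h3 : 0 ≤ s ^ α := Real.rpow_nonneg hs0.le _
      rw [ENNReal.toReal_ofReal']
      refine max_le (mul_le_mul_of_nonneg_right (le_abs_self C) h3) (by positivity)
    have hcomp := isCompact_GLev hd c s
    have hfin : volume (GLev d c s) ≠ ⊤ := hcomp.measure_lt_top.ne
    have h2 : ∫ z in GLev d c s, ‖z‖ ^ (2 * 0) = (volume (GLev d c s)).toReal := by
      simp [Measure.real]
    have h3 : ∫ z in GLev d c s, ‖z‖ ^ (2 * (d - 2)) ≤
        R ^ (2 * (d - 2)) * (volume (GLev d c s)).toReal := by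
      have h4 : ∫ z in GLev d c s, ‖z‖ ^ (2 * (d - 2)) ≤
          ∫ z in GLev d c s, (R ^ (2 * (d - 2)) : ℝ) := by
        apply setIntegral_mono_on
        · exact ((continuous_norm.pow _).continuousOn).integrableOn_compact hcomp
        · exact (continuous_const.continuousOn).integrableOn_compact hcomp
        · exact hcomp.isClosed.measurableSet
        · intro z hz
          apply pow_le_pow_left₀ (norm_nonneg _)
          have h5 := norm_iter_le hd (A := 2) (by norm_num) hc2 z 0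
          simp only [Function.iterate_zero, id_eq, pow_zero, one_mul] at h5
          refine h5.trans ?_
          have h6 : green d c z ≤ 1 := le_trans hz hs
          rw [hR]
          have := Real.exp_le_exp.mpr h6
          linarith
      refine h4.trans (le_of_eq ?_)
      rw [setIntegral_const, smul_eq_mul, mul_comm]
      rfl
    set V : ℝ := (volume (GLev d c s)).toReal with hV
    have hV0 : 0 ≤ V := ENNReal.toReal_nonneg
    have h4 : √((∫ z in GLev d c s, ‖z‖ ^ (2 * (d - 2))) * ∫ z in GLev d c s, ‖z‖ ^ (2 * 0)) ≤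
        R ^ (d - 2) * V := by
      apply Real.sqrt_le_iff.mpr
      refine ⟨by positivity, ?_⟩
      rw [h2]
      calc (∫ z in GLev d c s, ‖z‖ ^ (2 * (d - 2))) * V ≤ (R ^ (2 * (d - 2)) * V) * V :=
            mul_le_mul_of_nonneg_right h3 hV0
        _ = (R ^ (d - 2) * V) ^ 2 := by rw [mul_comm 2 (d - 2), pow_mul]; ring
    have h5 : (1 / 4 : ℝ) * ‖c' - c‖ ≤ d / Real.pi * (R ^ (d - 2) * V) := by
      have h6 : (1 - (3 / 4 : ℝ) ^ 1) = 1 / 4 := by norm_num
      rw [h6] at h1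
      exact h1.trans (mul_le_mul_of_nonneg_left h4 (by positivity))
    have hsα : 0 ≤ s ^ α := Real.rpow_nonneg hs0.le _
    have h7 : d / Real.pi * (R ^ (d - 2) * V) ≤ d / Real.pi * (R ^ (d - 2) * (|C| * s ^ α)) := by
      gcongr
    have h8 : ‖c' - c‖ ≤ K₁ * s ^ α := by
      have h9 : K₁ * s ^ α = 4 * (d / Real.pi * (R ^ (d - 2) * (|C| * s ^ α))) := by
        rw [hK₁]; ring
      rw [h9]
      linarith
    nlinarith
  · push Not at hs
    refine ⟨0, centre_zero hd hN, ?_⟩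
    rw [zero_sub, norm_neg]
    have h1 : (1 : ℝ) ≤ (K₀ / (d : ℝ) ^ N) ^ α := Real.one_le_rpow hs.le hα.le
    nlinarith

end Pool.Agent.H548R3.MB
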