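import Mathlib
import Pool.Agent.H548R3.MB.Eff2
import Pool.Agent.H749R2.Hyp2

set_option autoImplicit false

open Complex Topology Filter Metric MeasureTheory Set N62a1eb23

namespace Pool.Agent.H548R3.MB

open Pool.Agent.H713R2 Pool.Agent.H712R2 Pool.Agent.H713R2.AR

/-- Schwarz-Pick for functions without zeros, bounded above. -/
theorem log_upper {h : ℂ → ℂ} {c : ℂ} {r M : ℝ} (hr : 0 < r) (hM : 0 < M)
    (hd : DifferentiableOn ℂ h (ball c r)) (hne : ∀ z ∈ ball c r, h z ≠ 0)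
    (hub : ∀ z ∈ ball c r, ‖h z‖ ≤ M) :
    r * ‖deriv h c‖ ≤ 2 * ‖h c‖ * Real.log (M / ‖h c‖) := by
  have hcm : c ∈ ball c r := mem_ball_self hr
  have hc0 : 0 < ‖h c‖ := norm_pos_iff.mpr (hne c hcm)
  have h1 := Pool.Agent.H749R2.Hyp.log_schwarz (h := fun z => (h z)⁻¹) (c := c) (m := M⁻¹) hr
    (by positivity) (hd.inv hne) (fun z hz => by
      rw [norm_inv]
      exact inv_anti₀ (norm_pos_iff.mpr (hne z hz)) (hub z hz))
  have h2 : HasDerivAt h (deriv h c) c :=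
    ((hd c hcm).differentiableAt (isOpen_ball.mem_nhds hcm)).hasDerivAt
  have h3 : deriv (fun z => (h z)⁻¹) c = -deriv h c / h c ^ 2 := (h2.inv (hne c hcm)).deriv
  rw [h3, norm_div, norm_neg, norm_pow, norm_inv] at h1
  have h4 : ‖h c‖⁻¹ / M⁻¹ = M / ‖h c‖ := by field_simp
  rw [h4] at h1
  have h5 : r * ‖deriv h c‖ = (‖deriv h c‖ / ‖h c‖ ^ 2 * r) * ‖h c‖ ^ 2 := by field_simp
  have h6 : 2 * ‖h c‖ * Real.log (M / ‖h c‖) =
      (2 * ‖h c‖⁻¹ * Real.log (M / ‖h c‖)) * ‖h c‖ ^ 2 := by field_simp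
  rw [h5, h6]
  exact mul_le_mul_of_nonneg_right h1 (by positivity)

theorem pow_le_two {n : ℕ} (hn : 2 ≤ n) {c : ℂ} (hc : c ∈ multibrotSet n) (k : ℕ) :
    ‖P n k c‖ ^ (n - 1) ≤ 2 := by
  by_contra h
  push Not at h
  rcases le_or_gt ‖c‖ ‖P n k c‖ with h1 | h1
  · exact Pool.Agent.H749R2.Hyp.not_mem_of_gt hn (c := c) (z := P n k c) (k := k) rfl h1 h hc
  · have h2 := Pool.Agent.H749R2.Hyp.t_le_two hn hc
    have h3 : ‖P n k c‖ ^ (n - 1) ≤ ‖c‖ ^ (n - 1) := pow_le_pow_left₀ (norm_nonneg _) h1.le _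
    linarith

/-- The critical orbit inequality in terms of the distance to the parameters with attracting
cycles. -/
theorem hyp_ineq {d : ℕ} (hd : 2 ≤ d) {c : ℂ} (hc : c ∈ multibrotSet d) {r : ℝ} (hr : 0 < r)
    (hno : ∀ c' ∈ ball c r, ¬ ∃ m z, IsAttractingCycle (fun z => z ^ d + c') m z) {k : ℕ}
    (hk : 1 ≤ k) :
    r * ((d - 1 : ℕ) : ℝ) * ‖deriv (P d k) c‖ ≤
      2 * ‖P d k c‖ * Real.log (2 / ‖P d k c‖ ^ (d - 1)) := by
  have hsub := ball_subset hd hr hc hno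
  have hne : ∀ z ∈ ball c r, P d k z ≠ 0 := fun z hz => P_ne_zero hd (hno z hz) hk
  have hcm : c ∈ ball c r := mem_ball_self hr
  have hc0 : 0 < ‖P d k c‖ := norm_pos_iff.mpr (hne c hcm)
  have h1 := log_upper (h := fun z => (P d k z) ^ (d - 1)) (c := c) (M := 2) hr (by norm_num)
    (((differentiable_P d k).pow (d - 1)).differentiableOn)
    (fun z hz => pow_ne_zero _ (hne z hz))
    (fun z hz => by rw [norm_pow]; exact pow_le_two hd (hsub hz) k)
  have h2 : deriv (fun z => (P d k z) ^ (d - 1)) c =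
      ((d - 1 : ℕ) : ℂ) * (P d k c) ^ (d - 1 - 1) * deriv (P d k) c :=
    (((differentiable_P d k) c).hasDerivAt.pow (d - 1)).deriv
  rw [h2, norm_mul, norm_mul, norm_pow, norm_pow, Complex.norm_natCast] at h1
  obtain ⟨e, rfl⟩ : ∃ e, d = e + 2 := ⟨d - 2, by omega⟩
  simp only [show e + 2 - 1 = e + 1 by omega, Nat.add_sub_cancel] at h1 ⊢
  have hp : 0 < ‖P (e + 2) k c‖ ^ e := by positivity
  have h3 : (r * ((e + 1 : ℕ) : ℝ) * ‖deriv (P (e + 2) k) c‖) * ‖P (e + 2) k c‖ ^ e ≤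
      (2 * ‖P (e + 2) k c‖ * Real.log (2 / ‖P (e + 2) k c‖ ^ (e + 1))) *
        ‖P (e + 2) k c‖ ^ e := by
    calc _ = r * (((e + 1 : ℕ) : ℝ) * ‖P (e + 2) k c‖ ^ e * ‖deriv (P (e + 2) k) c‖) := by ring
      _ ≤ _ := h1
      _ = _ := by rw [pow_succ]; ring
  exact le_of_mul_le_mul_right h3 hp

/-- The critical orbit inequality for discs without centres of bounded period. -/
theorem disc_crit {d : ℕ} (hd : 2 ≤ d) {k : ℕ} (hk : 1 ≤ k) {γ : ℂ → ℂ}
    (hγ : DifferentiableOn ℂ γ (ball 0 1)) (hc : γ 0 ∈ multibrotSet d)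
    (hno : ∀ t ∈ ball (0 : ℂ) 1, ¬ Centre d (k + 1) (γ t)) {m : ℕ} (hm : 1 ≤ m) :
    (1 - (3 / 4 : ℝ) ^ m) * ‖deriv (fun t => P d k (γ t)) 0‖ ≤
      2 * ‖P d k (γ 0)‖ * Real.log (MM d m / ‖P d k (γ 0)‖) := by
  obtain ⟨J, rfl⟩ : ∃ J, k = J + 1 := ⟨k - 1, by omega⟩
  have hpos : (0 : ℝ) < (3 / 4 : ℝ) ^ m := by positivity
  have hlt : (3 / 4 : ℝ) ^ m < 1 := pow_lt_one₀ (by norm_num) (by norm_num) (by omega)
  set ρ : ℝ := 1 - (3 / 4 : ℝ) ^ m with hρ
  have hρ0 : 0 < ρ := by linarith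
  have hρ1 : ρ < 1 := by linarith
  have hM1 := one_le_MM d m
  have hmap : ∀ t ∈ ball (0 : ℂ) 1, ‖(ρ : ℂ) * t‖ ≤ ρ := by
    intro t ht
    rw [mem_ball_zero_iff] at ht
    rw [norm_mul, Complex.norm_real, Real.norm_eq_abs, abs_of_pos hρ0]
    nlinarith
  have hmapb : ∀ t ∈ ball (0 : ℂ) 1, (ρ : ℂ) * t ∈ ball (0 : ℂ) 1 := by
    intro t ht
    rw [mem_ball_zero_iff]
    exact (hmap t ht).trans_lt hρ1
  have hPγ : DifferentiableOn ℂ (fun t => P d (J + 1) (γ t)) (ball 0 1) :=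
    (differentiable_P d (J + 1)).comp_differentiableOn hγ
  have h1 := log_upper (h := fun t => P d (J + 1) (γ (ρ * t))) (c := 0) (r := 1) (M := MM d m)
    one_pos (by linarith) (hPγ.comp (by fun_prop) hmapb)
    (fun t ht h0 => hno _ (hmapb t ht) ⟨J + 1, by omega, by omega, h0⟩)
    (fun t ht => disc_bd hd hγ hc hno m _ (hmap t ht) (J + 1) (by omega) le_rfl)
  have hder : deriv (fun t => P d (J + 1) (γ (ρ * t))) 0 =
      ρ * deriv (fun t => P d (J + 1) (γ t)) 0 := by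
    have h3 : HasDerivAt (fun t => P d (J + 1) (γ t)) (deriv (fun t => P d (J + 1) (γ t)) 0)
        ((ρ : ℂ) * 0) := by
      rw [mul_zero]
      exact (hPγ.differentiableAt (ball_mem_nhds 0 one_pos)).hasDerivAt
    have h4 : HasDerivAt (fun t : ℂ => (ρ : ℂ) * t) ρ 0 := by
      simpa using (hasDerivAt_id (0 : ℂ)).const_mul (ρ : ℂ)
    have h5 := h3.comp (0 : ℂ) h4
    rw [mul_comm]
    exact h5.deriv
  rw [hder, norm_mul, Complex.norm_real, Real.norm_eq_abs, abs_of_pos hρ0, one_mul] at h1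
  simp only [mul_zero] at h1
  exact h1

/-- The nearest centre and the critical orbit. -/
theorem nearest_crit {d : ℕ} (hd : 2 ≤ d) {c : ℂ} (hc : c ∈ multibrotSet d) {k : ℕ} (hk : 1 ≤ k) :
    ∃ c' : ℂ, Centre d (k + 1) c' ∧ ∀ m : ℕ, 1 ≤ m → ∀ j : ℕ, 1 ≤ j → j ≤ k →
      (1 - (3 / 4 : ℝ) ^ m) * (‖c' - c‖ * ‖deriv (P d j) c‖) ≤
        2 * ‖P d j c‖ * Real.log ((MM d m + 2) / ‖P d j c‖) := by
  have hcb := (mem_multibrot_iff hd c).mp hc
  obtain ⟨c', hc', hdist⟩ := (isClosed_centre d (k + 1)).exists_infDist_eq_dist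
    ⟨0, centre_zero hd (by omega)⟩ c
  refine ⟨c', hc', ?_⟩
  intro m hm j hj hjk
  have hM1 := one_le_MM d m
  have hPj : ‖P d j c‖ ≤ 2 := hcb j
  set r : ℝ := dist c c' with hr
  have hrn : ‖c' - c‖ = r := by rw [hr, dist_comm, dist_eq_norm]
  rw [hrn]
  have hrhs : 0 ≤ 2 * ‖P d j c‖ * Real.log ((MM d m + 2) / ‖P d j c‖) := by
    rcases (norm_nonneg (P d j c)).eq_or_lt with h0 | h0
    · rw [← h0]; simp
    · apply mul_nonneg (by positivity)
      apply Real.log_nonneg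
      rw [le_div_iff₀ h0]
      linarith
  rcases (dist_nonneg (x := c) (y := c')).eq_or_lt with h0 | h0
  · rw [← hr] at h0
    rw [← h0]
    simpa using hrhs
  · rw [← hr] at h0
    have hno : ∀ t ∈ ball (0 : ℂ) 1, ¬ Centre d (k + 1) (c + r * t) := by
      intro t ht hcen
      rw [mem_ball_zero_iff] at ht
      have h2 : infDist c {c : ℂ | Centre d (k + 1) c} ≤ dist c (c + r * t) :=
        infDist_le_dist_of_mem hcen
      rw [hdist, dist_eq_norm, show c - (c + r * t) = -(r * t) by ring, norm_neg, norm_mul,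
        Complex.norm_real, Real.norm_eq_abs, abs_of_pos h0] at h2
      nlinarith
    have hPc : 0 < ‖P d j c‖ := by
      rw [norm_pos_iff]
      intro h3
      have := hno 0 (mem_ball_self one_pos)
      apply this
      rw [mul_zero, add_zero]
      exact ⟨j, hj, by omega, h3⟩
    have hno' : ∀ t ∈ ball (0 : ℂ) 1, ¬ Centre d (j + 1) (c + r * t) := by
      rintro t ht ⟨p, h1, h2, h3⟩
      exact hno t ht ⟨p, h1, by omega, h3⟩
    have h1 := disc_crit hd hj (γ := fun t : ℂ => c + r * t) (by fun_prop) (by simpa using hc)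
      hno' hm
    have hder : deriv (fun t : ℂ => P d j (c + r * t)) 0 = r * deriv (P d j) c := by
      have h3 : HasDerivAt (P d j) (deriv (P d j) c) (c + (r : ℂ) * 0) := by
        rw [mul_zero, add_zero]
        exact ((differentiable_P d j) c).hasDerivAt
      have h4 : HasDerivAt (fun t : ℂ => c + (r : ℂ) * t) r 0 := by
        simpa using ((hasDerivAt_id (0 : ℂ)).const_mul (r : ℂ)).const_add c
      have h5 := h3.comp (0 : ℂ) h4
      rw [mul_comm]
      exact h5.deriv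
    rw [hder, norm_mul, Complex.norm_real, Real.norm_eq_abs, abs_of_pos h0] at h1
    simp only [mul_zero, add_zero] at h1
    refine h1.trans ?_
    apply mul_le_mul_of_nonneg_left _ (by positivity)
    apply Real.log_le_log
    · exact div_pos (by linarith) hPc
    · exact div_le_div_of_nonneg_right (by linarith) hPc.le

theorem deriv_P_succ (d k : ℕ) (c : ℂ) :
    deriv (P d (k + 1)) c = d * (P d k c) ^ (d - 1) * deriv (P d k) c + 1 := by
  have h : P d (k + 1) = fun c => (P d k c) ^ d + c := by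
    funext c; exact P_succ d k c
  rw [h]
  exact ((((differentiable_P d k) c).hasDerivAt.pow d).add (hasDerivAt_id c)).deriv

/-- Growth of the parameter derivative along expanding critical orbits. -/
theorem growth {d : ℕ} (hd : 2 ≤ d) {lam : ℝ} (hl : 2 < lam) {c : ℂ} (k : ℕ)
    (h : ∀ j, 1 ≤ j → j ≤ k → lam ≤ d * ‖P d j c‖ ^ (d - 1)) :
    ((lam - 2) * lam ^ k + 1) / (lam - 1) ≤ ‖deriv (P d (k + 1)) c‖ := by
  induction k with
  | zero =>
    rw [deriv_P_succ, P_zero, zero_pow (by omega), mul_zero, zero_mul, zero_add, norm_one, pow_zero]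
    apply le_of_eq
    rw [div_eq_one_iff_eq (by linarith)]
    ring
  | succ k ih =>
    have h1 := ih (fun j h1 h2 => h j h1 (by omega))
    have h2 := h (k + 1) (by omega) le_rfl
    rw [deriv_P_succ]
    have h3 : ‖(d : ℂ) * (P d (k + 1) c) ^ (d - 1) * deriv (P d (k + 1)) c‖ =
        d * ‖P d (k + 1) c‖ ^ (d - 1) * ‖deriv (P d (k + 1)) c‖ := by
      rw [norm_mul, norm_mul, norm_pow, Complex.norm_natCast]
    have h4 := norm_sub_le ((d : ℂ) * (P d (k + 1) c) ^ (d - 1) * deriv (P d (k + 1)) c + 1) 1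
    rw [add_sub_cancel_right, h3, norm_one] at h4
    have hl1 : 0 < lam - 1 := by linarith
    have h5 : lam * ‖deriv (P d (k + 1)) c‖ ≤
        d * ‖P d (k + 1) c‖ ^ (d - 1) * ‖deriv (P d (k + 1)) c‖ :=
      mul_le_mul_of_nonneg_right h2 (norm_nonneg _)
    have h6 : lam * (((lam - 2) * lam ^ k + 1) / (lam - 1)) ≤ lam * ‖deriv (P d (k + 1)) c‖ :=
      mul_le_mul_of_nonneg_left h1 (by linarith)
    have h7 : ((lam - 2) * lam ^ (k + 1) + 1) / (lam - 1) =
        lam * (((lam - 2) * lam ^ k + 1) / (lam - 1)) - 1 := by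
      rw [pow_succ]
      field_simp
      ring
    rw [h7]
    linarith

theorem xlog_le {x K : ℝ} (hx : 0 ≤ x) (hK : 0 < K) : x * Real.log (K / x) ≤ K := by
  rcases hx.eq_or_lt with h0 | h0
  · rw [← h0, zero_mul]; exact hK.le
  · have h1 := Real.log_le_sub_one_of_pos (div_pos hK h0)
    calc x * Real.log (K / x) ≤ x * (K / x - 1) := mul_le_mul_of_nonneg_left h1 hx
      _ = K - x := by field_simp
      _ ≤ K := by linarith

/-- Exponential density of centres at parameters with expanding critical orbits. -/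
theorem expanding {d : ℕ} (hd : 2 ≤ d) {lam : ℝ} (hl : 2 < lam) :
    ∃ K : ℝ, ∀ c ∈ multibrotSet d, ∀ k : ℕ,
      (∀ j, 1 ≤ j → j ≤ k → lam ≤ d * ‖P d j c‖ ^ (d - 1)) →
      ∃ c' : ℂ, Centre d (k + 2) c' ∧ ‖c' - c‖ ≤ K / lam ^ (k + 2) := by
  have hM1 := one_le_MM d 1
  set M : ℝ := MM d 1 + 2 with hM
  refine ⟨8 * M * (lam ^ 2 * (lam - 1) / (lam - 2)), ?_⟩
  intro c hc k h
  obtain ⟨c', hc', hb⟩ := nearest_crit hd hc (k := k + 1) (by omega)
  refine ⟨c', hc', ?_⟩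
  have h1 := hb 1 le_rfl (k + 1) (by omega) le_rfl
  rw [← hM] at h1
  have h2 := growth hd hl k h
  have h3 := xlog_le (norm_nonneg (P d (k + 1) c)) (K := M) (by linarith)
  have h4 : (1 - (3 / 4 : ℝ) ^ 1) = 1 / 4 := by norm_num
  rw [h4] at h1
  have hl0 : 0 < lam := by linarith
  have hlk : 0 < lam ^ k := by positivity
  have h5 : (lam - 2) * lam ^ k / (lam - 1) ≤ ‖deriv (P d (k + 1)) c‖ := by
    refine le_trans ?_ h2
    apply div_le_div_of_nonneg_right _ (by linarith)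
    linarith
  have h6 : ‖c' - c‖ * ((lam - 2) * lam ^ k / (lam - 1)) ≤ 8 * M := by
    have h7 : ‖c' - c‖ * ((lam - 2) * lam ^ k / (lam - 1)) ≤
        ‖c' - c‖ * ‖deriv (P d (k + 1)) c‖ := mul_le_mul_of_nonneg_left h5 (norm_nonneg _)
    nlinarith
  have hl2 : 0 < lam - 2 := by linarith
  have hl1 : 0 < lam - 1 := by linarith
  have h8 : 8 * M * (lam ^ 2 * (lam - 1) / (lam - 2)) / lam ^ (k + 2) =
      8 * M / ((lam - 2) * lam ^ k / (lam - 1)) := by
    rw [pow_add]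
    field_simp
  rw [h8, le_div_iff₀ (by positivity)]
  exact h6

theorem scale2 {ε x B : ℝ} {k : ℕ} (hε : 0 < ε) (hx : 0 ≤ x)
    (hk : 1 ≤ (1 + ε) * (1 - (3 / 4 : ℝ) ^ k)) (h : (1 - (3 / 4 : ℝ) ^ k) * x ≤ B) :
    x ≤ (1 + ε) * B := scale hε hx hk h

theorem exists_k' {ε : ℝ} (hε : 0 < ε) :
    ∃ k : ℕ, 1 ≤ k ∧ 1 ≤ (1 + ε) * (1 - (3 / 4 : ℝ) ^ k) := by
  obtain ⟨k, hk⟩ := exists_k hε
  refine ⟨k + 1, by omega, hk.trans ?_⟩
  apply mul_le_mul_of_nonneg_left _ (by linarith)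
  have : (3 / 4 : ℝ) ^ (k + 1) ≤ (3 / 4 : ℝ) ^ k :=
    pow_le_pow_of_le_one (by norm_num) (by norm_num) (by omega)
  linarith

/-- The explicit estimate for the distance to the parameters with attracting cycles. -/
theorem expanding_hyp {d : ℕ} (hd : 2 ≤ d) {lam : ℝ} (hl : 2 < lam) {c : ℂ}
    (hc : c ∈ multibrotSet d) {r : ℝ} (hr : 0 < r)
    (hno : ∀ c' ∈ ball c r, ¬ ∃ m z, IsAttractingCycle (fun z => z ^ d + c') m z) {k : ℕ}
    (h : ∀ j, 1 ≤ j → j ≤ k → lam ≤ d * ‖P d j c‖ ^ (d - 1)) :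
    r ≤ 2 * (lam - 1) / ((lam - 2) * lam ^ k) := by
  have hsub := ball_subset hd hr hc hno
  have h1 : ‖deriv (P d (k + 1)) c‖ ≤ 2 / r := by
    apply norm_deriv_le_of_forall_mem_sphere_norm_le (c := c) (R := r) hr
    · exact (differentiable_P d (k + 1)).diffContOnCl
    · intro z hz
      have hz1 : z ∈ closure (ball c r) := by
        rw [closure_ball c hr.ne']
        exact sphere_subset_closedBall hz
      have hz2 : z ∈ multibrotSet d :=
        closure_minimal hsub (isCompact_multibrot hd).isClosed hz1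
      exact (mem_multibrot_iff hd z).mp hz2 (k + 1)
  have h2 := growth hd hl k h
  have hlk : 0 < lam ^ k := by positivity
  have hl2 : 0 < lam - 2 := by linarith
  have hl1 : 0 < lam - 1 := by linarith
  have h5 : (lam - 2) * lam ^ k / (lam - 1) ≤ ‖deriv (P d (k + 1)) c‖ := by
    refine le_trans ?_ h2
    apply div_le_div_of_nonneg_right _ (by linarith)
    linarith
  have h6 := h5.trans h1
  rw [div_le_div_iff₀ hl1 hr] at h6
  rw [le_div_iff₀ (by positivity)]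
  linarith

end Pool.Agent.H548R3.MB
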